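import Pool.Agent.WR2.StmtsC

/-!
# Squad WR2, row BWD: the number of the bad words
-/

set_option autoImplicit false

namespace Pool.Agent.WR2.H91

open Pool.Agent.WIR Pool.Agent.WR2
open scoped BigOperators ENNReal

theorem card_pow (S : Finset ℕ) (p : ℕ → Prop) [DecidablePred p] :
    (S.powerset.filter (fun O => p O.card)).card
      = ∑ i ∈ (Finset.range (S.card + 1)).filter p, S.card.choose i := by
  rw [Finset.card_eq_sum_card_fiberwise (f := Finset.card)
    (t := (Finset.range (S.card + 1)).filter p)]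
  · apply Finset.sum_congr rfl
    intro i hi
    rw [Finset.mem_filter] at hi
    rw [← Finset.card_powersetCard]
    congr 1
    ext O
    simp only [Finset.mem_filter, Finset.mem_powerset, Finset.mem_powersetCard]
    constructor
    · rintro ⟨⟨h1, _⟩, h3⟩
      exact ⟨h1, h3⟩
    · rintro ⟨h1, h3⟩
      exact ⟨⟨h1, h3 ▸ hi.2⟩, h3⟩
  · intro O hO
    rw [Finset.mem_coe, Finset.mem_filter, Finset.mem_powerset] at hO
    rw [Finset.mem_coe, Finset.mem_filter, Finset.mem_range]
    exact ⟨Nat.lt_succ_of_le (Finset.card_le_card hO.1), hO.2⟩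

theorem first_kind (hHoe : HoeStmt) (r K : ℕ) (hK : 3 * r ≤ K) :
    (((Finset.Icc 1 K).powerset.filter
      (fun O => (O ∩ Finset.Icc 1 (3 * r)).card < r)).card : ℝ)
      ≤ 2 ^ K * Real.exp (-((r : ℝ) / 6)) := by
  rcases Nat.eq_zero_or_pos r with rfl | hr
  · have h0 : (Finset.Icc 1 K).powerset.filter
      (fun O => (O ∩ Finset.Icc 1 (3 * 0)).card < 0) = ∅ := by
      apply Finset.filter_false_of_mem
      intro O _
      exact Nat.not_lt_zero _
    rw [h0]
    simp only [Finset.card_empty, Nat.cast_zero]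
    positivity
  have h1 : ((Finset.Icc 1 K).powerset.filter
      (fun O => (O ∩ Finset.Icc 1 (3 * r)).card < r)).card
      ≤ (((Finset.Icc 1 (3 * r)).powerset.filter (fun O => O.card < r)) ×ˢ
        (Finset.Icc (3 * r + 1) K).powerset).card := by
    apply Finset.card_le_card_of_injOn
      (fun O => (O ∩ Finset.Icc 1 (3 * r), O ∩ Finset.Icc (3 * r + 1) K))
    · intro O hO
      rw [Finset.mem_coe, Finset.mem_filter] at hO
      rw [Finset.mem_coe, Finset.mem_product, Finset.mem_filter, Finset.mem_powerset,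
        Finset.mem_powerset]
      exact ⟨⟨Finset.inter_subset_right, hO.2⟩, Finset.inter_subset_right⟩
    · intro O hO O' hO' h
      rw [Finset.mem_coe, Finset.mem_filter, Finset.mem_powerset] at hO hO'
      simp only [Prod.mk.injEq] at h
      have key : ∀ Q : Finset ℕ, Q ⊆ Finset.Icc 1 K →
          Q = (Q ∩ Finset.Icc 1 (3 * r)) ∪ (Q ∩ Finset.Icc (3 * r + 1) K) := by
        intro Q hQ
        ext x
        simp only [Finset.mem_union, Finset.mem_inter, Finset.mem_Icc]
        constructor
        · intro hx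
          have := Finset.mem_Icc.1 (hQ hx)
          by_cases hx3 : x ≤ 3 * r
          · exact Or.inl ⟨hx, this.1, hx3⟩
          · exact Or.inr ⟨hx, by omega, this.2⟩
        · rintro (hx | hx)
          · exact hx.1
          · exact hx.1
      rw [key O hO.1, key O' hO'.1, h.1, h.2]
  have h2 : ((((Finset.Icc 1 (3 * r)).powerset.filter (fun O => O.card < r)).card : ℕ) : ℝ)
      ≤ 2 ^ (3 * r) * Real.exp (-((r : ℝ) / 6)) := by
    rw [card_pow (Finset.Icc 1 (3 * r)) (fun i => i < r), Nat.card_Icc]
    have hs : 3 * r + 1 - 1 = 3 * r := by omega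
    rw [hs]
    have h3 := (hHoe (3 * r) (r : ℝ) (by omega) (Nat.cast_nonneg r)).2
    have h4 : (r : ℝ) ^ 2 / (2 * ((3 * r : ℕ) : ℝ)) = (r : ℝ) / 6 := by
      have : (0 : ℝ) < r := by exact_mod_cast hr
      push_cast
      field_simp
      ring
    rw [h4] at h3
    refine le_trans ?_ h3
    push_cast
    apply Finset.sum_le_sum_of_subset_of_nonneg
    · intro i hi
      rw [Finset.mem_filter] at hi ⊢
      refine ⟨hi.1, ?_⟩
      have : (i : ℝ) < r := by exact_mod_cast hi.2
      linarith
    · intro i _ _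
      positivity
  have h5 : (Finset.Icc (3 * r + 1) K).powerset.card = 2 ^ (K - 3 * r) := by
    rw [Finset.card_powerset, Nat.card_Icc]
    congr 1
    omega
  calc (((Finset.Icc 1 K).powerset.filter
      (fun O => (O ∩ Finset.Icc 1 (3 * r)).card < r)).card : ℝ)
      ≤ (((((Finset.Icc 1 (3 * r)).powerset.filter (fun O => O.card < r)) ×ˢ
        (Finset.Icc (3 * r + 1) K).powerset).card : ℕ) : ℝ) := by exact_mod_cast h1
    _ = ((((Finset.Icc 1 (3 * r)).powerset.filter (fun O => O.card < r)).card : ℕ) : ℝ)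
        * 2 ^ (K - 3 * r) := by
        rw [Finset.card_product, h5]
        push_cast
        ring
    _ ≤ (2 ^ (3 * r) * Real.exp (-((r : ℝ) / 6))) * 2 ^ (K - 3 * r) := by
        apply mul_le_mul_of_nonneg_right h2
        positivity
    _ = 2 ^ K * Real.exp (-((r : ℝ) / 6)) := by
        have : (2 : ℝ) ^ K = 2 ^ (3 * r) * 2 ^ (K - 3 * r) := by
          rw [← pow_add]
          congr 1
          omega
        rw [this]
        ring

theorem second_kind (hHoe : HoeStmt) (K : ℕ) (hK : 0 < K) :
    (((Finset.Icc 1 K).powerset.filter (fun O => 21 * K < 40 * O.card)).card : ℝ)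
      ≤ 2 ^ K * Real.exp (-((K : ℝ) / 800)) := by
  rw [card_pow (Finset.Icc 1 K) (fun i => 21 * K < 40 * i), Nat.card_Icc]
  have hs : K + 1 - 1 = K := by omega
  rw [hs]
  have hK0 : (0 : ℝ) < K := by exact_mod_cast hK
  have h3 := (hHoe K ((K : ℝ) / 20) hK (by positivity)).1
  have h4 : ((K : ℝ) / 20) ^ 2 / (2 * (K : ℝ)) = (K : ℝ) / 800 := by
    field_simp
    ring
  rw [h4] at h3
  refine le_trans ?_ h3
  push_cast
  apply Finset.sum_le_sum_of_subset_of_nonneg
  · intro i hi
    rw [Finset.mem_filter] at hi ⊢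
    refine ⟨hi.1, ?_⟩
    have : ((21 * K : ℕ) : ℝ) < ((40 * i : ℕ) : ℝ) := by exact_mod_cast hi.2
    push_cast at this
    linarith
  · intro i _ _
    positivity

theorem bwd (hHoe : HoeStmt) : BwdStmt := by
  refine ⟨?_, ?_⟩
  · intro r K hK h3
    have h1 : bd K r ⊆ ((Finset.Icc 1 K).powerset.filter
      (fun O => (O ∩ Finset.Icc 1 (3 * r)).card < r)) ∪
      ((Finset.Icc 1 K).powerset.filter (fun O => 21 * K < 40 * O.card)) := by
      intro O hO
      unfold bd at hO
      rw [Finset.mem_filter] at hO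
      rw [Finset.mem_union, Finset.mem_filter, Finset.mem_filter]
      rcases hO.2 with h | h
      · exact Or.inl ⟨hO.1, h⟩
      · exact Or.inr ⟨hO.1, h⟩
    have h2 : ((bd K r).card : ℝ) ≤ (((Finset.Icc 1 K).powerset.filter
      (fun O => (O ∩ Finset.Icc 1 (3 * r)).card < r)).card : ℝ) +
      (((Finset.Icc 1 K).powerset.filter (fun O => 21 * K < 40 * O.card)).card : ℝ) := by
      exact_mod_cast le_trans (Finset.card_le_card h1) (Finset.card_union_le _ _)
    have h4 := first_kind hHoe r K h3
    have h5 := second_kind hHoe K hK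
    rw [mul_add]
    linarith
  · intro r K
    unfold bz
    rw [Finset.card_eq_sum_card_fiberwise (f := FO r) (t := Finset.univ)]
    intro O _
    exact Finset.mem_coe.2 (Finset.mem_univ _)

end Pool.Agent.WR2.H91
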